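import Mathlib

/-!
# Two disjoint projective copies of a blocking set of `PG(2, r^h)`

For every prime power `r`, every `h ≥ 2` and every field `F` with `r^h` elements there is a projectivity
`γ` such that the blocking set `B = {(1, x, x^r)} ∪ {(0, 1, y) : y^(1+r+…+r^(h-1)) = 1}` is disjoint
from `γ(B)`.  (Below `r` is called `p` and the exponent `m` of `y` is any positive integer.)

Choose `k` outside the image of `x ↦ x^p - x` and put `g x = x^p - x - k`, which has no zero.  For
`b, c : F`, `c ≠ 0`, the projectivity `(x₀, x₁, x₂) ↦ (x₂ - x₁ - k x₀, x₁ + b x₀, c x₀)` maps `B` to a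
set disjoint from `B` if and only if `c` is not a value of `f_b x = (x + b)^p / (g x)^(p-1)`.  The
function `f_b` has the zero `-b`; so it is enough to choose `b` such that `f_b` is not injective.
-/

namespace Pool.Agent.Results.MP_837a86_co.DisjointCopy

open Polynomial

/-- The point set `{(1, x, x^r)} ∪ {(0, 1, y) : y^m = 1}` of `PG(2, F)`. -/
def B (r m : ℕ) (F : Type) [Field F] : Set (Projectivization F (Fin 3 → F)) :=
  {P | (∃ x : F, ∃ h : (![1, x, x ^ r] : Fin 3 → F) ≠ 0, P = Projectivization.mk F ![1, x, x ^ r] h) ∨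
    ∃ y : F, y ^ m = 1 ∧
      ∃ h : (![0, 1, y] : Fin 3 → F) ≠ 0, P = Projectivization.mk F ![0, 1, y] h}

/-- The linear map of the projectivity. -/
def lin {F : Type*} [Field F] (k b c : F) (v : Fin 3 → F) : Fin 3 → F :=
  ![v 2 - v 1 - k * v 0, v 1 + b * v 0, c * v 0]

/-- The projectivity as a linear equivalence. -/
noncomputable def equ {F : Type*} [Field F] (k b c : F) (hc : c ≠ 0) :
    (Fin 3 → F) ≃ₗ[F] (Fin 3 → F) where
  toFun := lin k b c
  invFun w := ![c⁻¹ * w 2, w 1 - b * (c⁻¹ * w 2),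
    w 0 + (w 1 - b * (c⁻¹ * w 2)) + k * (c⁻¹ * w 2)]
  map_add' := by
    intro v w
    funext i
    fin_cases i <;> simp [lin] <;> ring
  map_smul' := by
    intro a v
    funext i
    fin_cases i <;> simp [lin] <;> ring
  left_inv := by
    intro v
    funext i
    fin_cases i
    · simp [lin, hc]
    · simp [lin, hc]
    · simp [lin, hc]
      ring
  right_inv := by
    intro w
    funext i
    fin_cases i
    · simp [lin]
      ring
    · simp [lin]
    · simp [lin, hc]

/-- A polynomial of small degree takes a second value. -/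
lemma exists_ne (p h : ℕ) (hp2 : 2 ≤ p) (hh : 2 ≤ h) (F : Type) [Field F] [Fintype F]
    (hF : Fintype.card F = p ^ h) (k A : F) : ∃ x : F, (x ^ p - x - k) ^ (p - 1) ≠ A := by
  by_contra hcon
  push Not at hcon
  have h1 : (X ^ p - (X + C k) : F[X]).Monic := by
    apply monic_X_pow_sub
    rw [degree_X_add_C]
    exact_mod_cast hp2
  have h2 : (X ^ p - (X + C k) : F[X]).natDegree = p := by
    rw [natDegree_sub_eq_left_of_natDegree_lt, natDegree_X_pow]
    rw [natDegree_X_add_C, natDegree_X_pow]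
    omega
  set P : F[X] := (X ^ p - (X + C k)) ^ (p - 1) with hP
  have h3 : P.natDegree = (p - 1) * p := by
    rw [hP, h1.natDegree_pow, h2]
  have h4 : P = C A := by
    apply Polynomial.eq_of_natDegree_lt_card_of_eval_eq P (C A) (f := id) Function.injective_id
    · intro x
      simp only [hP, id, eval_pow, eval_sub, eval_X, eval_add, eval_C]
      rw [← hcon x]
      ring
    · rw [natDegree_C, h3, hF]
      have h5 : (p - 1) * p < p * p := by
        apply Nat.mul_lt_mul_of_pos_right (by omega) (by omega)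
      have h6 : p * p ≤ p ^ h := by
        rw [← pow_two]
        exact Nat.pow_le_pow_right (by omega) hh
      have h7 : 0 < p ^ h := by positivity
      omega
  rw [h4, natDegree_C] at h3
  have : 0 < (p - 1) * p := Nat.mul_pos (by omega) (by omega)
  omega

/-- The choice of the parameters. -/
lemma exists_params (q e h : ℕ) (hq : q.Prime) (he : 1 ≤ e) (hh : 2 ≤ h) (F : Type) [Field F]
    [Fintype F] (p : ℕ) (hpq : p = q ^ e) (hF : Fintype.card F = p ^ h) :
    ∃ k b c : F, c ≠ 0 ∧ (∀ x : F, x ^ p - x - k ≠ 0) ∧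
      ∀ x : F, c * (x ^ p - x - k) ^ (p - 1) ≠ (x + b) ^ p := by
  have : Fact q.Prime := ⟨hq⟩
  have : CharP F q := by
    apply charP_of_card_eq_prime_pow (f := e * h)
    rw [hF, hpq, pow_mul]
  have hp2 : 2 ≤ p := by
    rw [hpq]
    calc 2 ≤ q := hq.two_le
      _ = q ^ 1 := (pow_one q).symm
      _ ≤ q ^ e := Nat.pow_le_pow_right hq.pos he
  have hp0 : p ≠ 0 := by omega
  -- the number `k`
  have h1 : ¬ Function.Surjective fun x : F => x ^ p - x := by
    intro hs
    have hi : Function.Injective fun x : F => x ^ p - x := Finite.injective_iff_surjective.2 hs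
    have := @hi 0 1 (by simp [hp0])
    exact zero_ne_one this
  unfold Function.Surjective at h1
  push Not at h1
  obtain ⟨k, hk⟩ := h1
  have hg : ∀ x : F, x ^ p - x - k ≠ 0 := fun x => sub_ne_zero.2 (hk x)
  -- two points
  obtain ⟨x₁, hx₁⟩ := exists_ne p h hp2 hh F hF k ((0 ^ p - 0 - k) ^ (p - 1))
  set G : F → F := fun x => x ^ p - x - k with hG
  have hx₁' : (G x₁ / G 0) ^ (p - 1) ≠ 1 := by
    intro h
    rw [div_pow, div_eq_one_iff_eq (pow_ne_zero _ (hg 0))] at h
    exact hx₁ h
  have hx0 : x₁ ≠ 0 := by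
    rintro rfl
    exact hx₁ rfl
  obtain ⟨r, hr⟩ : ∃ r : F, r ^ p = (G x₁ / G 0) ^ (p - 1) := by
    have hs : Function.Surjective (iterateFrobenius F q e) :=
      Finite.injective_iff_surjective.1 (iterateFrobenius_inj F q e)
    obtain ⟨r, hr⟩ := hs ((G x₁ / G 0) ^ (p - 1))
    refine ⟨r, ?_⟩
    rw [← hr, iterateFrobenius_def, hpq]
  have hr1 : r ≠ 1 := by
    rintro rfl
    rw [one_pow] at hr
    exact hx₁' hr.symm
  have hr0 : r ≠ 0 := by
    rintro rfl
    rw [zero_pow hp0] at hr
    exact pow_ne_zero _ (div_ne_zero (hg x₁) (hg 0)) hr.symm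
  have hr1' : r - 1 ≠ 0 := sub_ne_zero.2 hr1
  set b : F := x₁ / (r - 1) with hb
  have hb0 : b ≠ 0 := div_ne_zero hx0 hr1'
  have hxb : x₁ + b = r * b := by
    rw [hb]
    field_simp
    ring
  -- the function is not injective
  let f : F → F := fun x => (x + b) ^ p / (G x) ^ (p - 1)
  have hf : f x₁ = f 0 := by
    change (x₁ + b) ^ p / (G x₁) ^ (p - 1) = (0 + b) ^ p / (G 0) ^ (p - 1)
    rw [hxb, zero_add, mul_pow, hr, div_pow]
    have e1 : G x₁ ^ (p - 1) ≠ 0 := pow_ne_zero _ (hg x₁)
    have e2 : G 0 ^ (p - 1) ≠ 0 := pow_ne_zero _ (hg 0)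
    field_simp
  have hns : ¬ Function.Surjective f := by
    intro hs
    exact hx0 (Finite.injective_iff_surjective.2 hs hf)
  unfold Function.Surjective at hns
  push Not at hns
  obtain ⟨c, hc⟩ := hns
  refine ⟨k, b, c, ?_, hg, ?_⟩
  · rintro rfl
    apply hc (-b)
    change (-b + b) ^ p / _ = 0
    rw [neg_add_cancel, zero_pow hp0, zero_div]
  · intro x hx
    apply hc x
    change (x + b) ^ p / (G x) ^ (p - 1) = c
    rw [div_eq_iff (pow_ne_zero _ (hg x))]
    exact hx.symm

/-- Let `r = p^e` be a prime power, `h ≥ 2` and `F` a field with `r^h` elements. For every `m ≥ 1`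
there is a projectivity `γ` of `PG(2, F)` such that the set `B = {(1, x, x^r)} ∪ {(0, 1, y) : y^m = 1}`
is disjoint from `γ(B)`. -/
theorem result : ∀ (p e h m : ℕ), p.Prime → 1 ≤ e → 2 ≤ h → 1 ≤ m →
    ∀ (F : Type) [Field F] [Fintype F], Fintype.card F = (p ^ e) ^ h →
      ∃ g : (Fin 3 → F) ≃ₗ[F] (Fin 3 → F),
        B (p ^ e) m F ∩ (Projectivization.map g.toLinearMap g.injective) '' B (p ^ e) m F = ∅ := by
  intro q e h m hq he hh hm F _ _ hF
  have hr1 : 1 ≤ q ^ e := Nat.one_le_pow _ _ hq.pos
  obtain ⟨k, b, c, hc, hg, hcb⟩ := exists_params q e h hq he hh F (q ^ e) rfl hF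
  generalize q ^ e = p at *
  refine ⟨equ k b c hc, ?_⟩
  rw [Set.eq_empty_iff_forall_notMem]
  rintro P ⟨hP, R, hR, hRP⟩
  have hmap : ∀ (v : Fin 3 → F) (hv : v ≠ 0),
      Projectivization.map (equ k b c hc).toLinearMap (equ k b c hc).injective
        (Projectivization.mk F v hv)
      = Projectivization.mk F (lin k b c v) (by
          intro h
          exact hv ((equ k b c hc).map_eq_zero_iff.1 h)) := fun v hv => rfl
  rcases hR with ⟨x, hx, rfl⟩ | ⟨y, hy, hy', rfl⟩
  · rw [hmap] at hRP
    subst hRP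
    rcases hP with ⟨z, hz, h⟩ | ⟨z, hz1, hz, h⟩
    · rw [Projectivization.mk_eq_mk_iff'] at h
      obtain ⟨a, ha⟩ := h
      have h0 := congrFun ha 0
      have h1 := congrFun ha 1
      have h2 := congrFun ha 2
      simp [lin] at h0 h1 h2
      -- `a = g x`, `a z = x + b`, `a z^p = c`
      apply hcb x
      have ha0 : a = x ^ p - x - k := h0
      rw [← ha0, ← h1, ← h2, mul_pow]
      have hpp : a ^ p = a * a ^ (p - 1) := by
        rw [← pow_succ', Nat.sub_add_cancel hr1]
      rw [hpp]
      ring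
    · rw [Projectivization.mk_eq_mk_iff'] at h
      obtain ⟨a, ha⟩ := h
      have h0 := congrFun ha 0
      simp [lin] at h0
      exact hg x h0.symm
  · rw [hmap] at hRP
    subst hRP
    rcases hP with ⟨z, hz, h⟩ | ⟨z, hz1, hz, h⟩
    · rw [Projectivization.mk_eq_mk_iff'] at h
      obtain ⟨a, ha⟩ := h
      have h1 := congrFun ha 1
      have h2 := congrFun ha 2
      simp [lin] at h1 h2
      rcases h2 with h2 | h2
      · rw [h2] at h1
        simp at h1
      · rw [h2.1] at h1
        simp at h1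
    · rw [Projectivization.mk_eq_mk_iff'] at h
      obtain ⟨a, ha⟩ := h
      have h1 := congrFun ha 1
      have h2 := congrFun ha 2
      simp [lin] at h1 h2
      rcases h2 with h2 | h2
      · rw [h2] at h1
        simp at h1
      · rw [h2, zero_pow (by omega)] at hz1
        exact zero_ne_one hz1

end Pool.Agent.Results.MP_837a86_co.DisjointCopy
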